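import Mathlib

/-!
# Project LP, job GCS: polynomial phases are controlled by the Gowers norm
-/

set_option autoImplicit false

namespace Pool.Agent.Q222.LP

open Finset

section
variable {V : Type} [AddCommGroup V] [Fintype V]

/-- products over the subsets of `Fin (k + 1)` -/
theorem prod_subsets {k : ℕ} (F : Finset (Fin (k + 1)) → ℝ) :
    ∏ ω : Finset (Fin (k + 1)), F ω =
      ∏ ω : Finset (Fin k), F (ω.map (Fin.succEmb k)) *
        F (insert 0 (ω.map (Fin.succEmb k))) := by
  have h0 : (0 : Fin (k + 1)) ∉ (univ : Finset (Fin k)).map (Fin.succEmb k) := by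
    intro h
    obtain ⟨i, -, hi⟩ := Finset.mem_map.1 h
    exact absurd hi (Fin.succ_ne_zero i)
  have h1 : (univ : Finset (Fin (k + 1))) = insert 0 ((univ : Finset (Fin k)).map (Fin.succEmb k)) := by
    ext i
    simp only [mem_univ, mem_insert, Finset.mem_map, true_and, true_iff]
    rcases Fin.eq_zero_or_eq_succ i with h | ⟨j, hj⟩
    · exact Or.inl h
    · exact Or.inr ⟨j, hj.symm⟩
  have h2 : (univ : Finset (Finset (Fin (k + 1)))) = (univ : Finset (Fin (k + 1))).powerset := by
    simp
  have h3 : ∀ H : Finset (Fin (k + 1)) → ℝ,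
      ∏ t ∈ ((univ : Finset (Fin k)).map (Fin.succEmb k)).powerset, H t =
        ∏ ω : Finset (Fin k), H (ω.map (Fin.succEmb k)) := by
    intro H
    symm
    refine Finset.prod_nbij (fun ω => ω.map (Fin.succEmb k)) ?_ ?_ ?_ ?_
    · intro ω _
      rw [mem_powerset]
      exact Finset.map_subset_map.2 (subset_univ ω)
    · intro a _ b _ hab
      exact Finset.map_injective _ hab
    · intro t ht
      have ht' := mem_powerset.1 (Finset.mem_coe.1 ht)
      obtain ⟨u, -, hu⟩ := Finset.subset_map_iff.1 ht'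
      exact ⟨u, Finset.mem_coe.2 (mem_univ _), hu.symm⟩
    · intro ω _
      rfl
  rw [h2, h1, Finset.prod_powerset_insert h0, h3, h3, ← Finset.prod_mul_distrib]

omit [AddCommGroup V] in
theorem sum_cons {k : ℕ} (F : (Fin (k + 1) → V) → ℝ) :
    ∑ h : Fin (k + 1) → V, F h = ∑ a : V, ∑ h : Fin k → V, F (Fin.cons a h) := by
  rw [← (Fin.consEquiv fun _ : Fin (k + 1) => V).sum_comp, Fintype.sum_prod_type]
  rfl

/-- the main inequality -/
theorem gcs_main (k : ℕ) : ∀ f : V → ℝ,
    ((∑ x, f x) / (Fintype.card V : ℝ)) ^ (2 ^ k) ≤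
      (∑ x, ∑ h : Fin k → V, ∏ ω : Finset (Fin k), f (x + ∑ i ∈ ω, h i)) /
        ((Fintype.card V : ℝ) * (Fintype.card (Fin k → V) : ℝ)) := by
  have hV : 0 < (Fintype.card V : ℝ) := by
    have : Nonempty V := ⟨0⟩
    exact_mod_cast Fintype.card_pos
  have hV0 := hV.ne'
  induction k with
  | zero =>
    intro f
    have h1 : ∀ x, ∑ h : Fin 0 → V, ∏ ω : Finset (Fin 0), f (x + ∑ i ∈ ω, h i) = f x := by
      intro x
      rw [Fintype.sum_unique]
      have h2 : (univ : Finset (Finset (Fin 0))) = {∅} := by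
        ext s
        simp only [mem_univ, mem_singleton, true_iff]
        exact Finset.eq_empty_of_isEmpty s
      rw [h2, Finset.prod_singleton]
      simp
    simp only [h1]
    have h3 : (Fintype.card (Fin 0 → V) : ℝ) = 1 := by simp
    rw [h3]
    simp
  | succ k ih =>
    intro f
    set fa : V → V → ℝ := fun a x => f x * f (x + a) with hfa
    set m : V → ℝ := fun a => (∑ x, fa a x) / (Fintype.card V : ℝ) with hm
    have hsq : ((∑ x, f x) / (Fintype.card V : ℝ)) ^ 2 =
        ∑ a : V, (1 / (Fintype.card V : ℝ)) * m a := by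
      have h1 : (∑ x, f x) ^ 2 = ∑ a : V, ∑ x, fa a x := by
        rw [sq, Finset.sum_mul_sum, Finset.sum_comm (s := (univ : Finset V)) (t := univ)
          (f := fun a x => fa a x)]
        refine Finset.sum_congr rfl fun x _ => ?_
        exact (Equiv.sum_comp (Equiv.addLeft x) fun y => f x * f y).symm
      rw [div_pow, h1, ← Finset.mul_sum]
      simp only [hm]
      rw [← Finset.sum_div]
      field_simp
    have hjensen : (∑ a : V, (1 / (Fintype.card V : ℝ)) * m a) ^ (2 ^ k) ≤
        ∑ a : V, (1 / (Fintype.card V : ℝ)) * m a ^ (2 ^ k) := by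
      have hw : ∑ _a : V, (1 / (Fintype.card V : ℝ)) = 1 := by
        rw [Finset.sum_const, Finset.card_univ, nsmul_eq_mul]
        field_simp
      rcases Nat.eq_zero_or_pos k with hk | hk
      · subst hk
        simp
      · refine Real.pow_arith_mean_le_arith_mean_pow_of_even univ _ _ (fun a _ => by positivity) hw ?_
        exact (Nat.even_pow.2 ⟨even_two, hk.ne'⟩)
    have hP : ∑ x, ∑ h : Fin (k + 1) → V, ∏ ω : Finset (Fin (k + 1)), f (x + ∑ i ∈ ω, h i) =
        ∑ a : V, ∑ x, ∑ h : Fin k → V, ∏ ω : Finset (Fin k), fa a (x + ∑ i ∈ ω, h i) := by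
      rw [Finset.sum_comm (s := (univ : Finset V)) (t := (univ : Finset V))]
      refine Finset.sum_congr rfl fun x _ => ?_
      rw [sum_cons]
      refine Finset.sum_congr rfl fun a _ => Finset.sum_congr rfl fun h _ => ?_
      rw [prod_subsets]
      refine Finset.prod_congr rfl fun ω _ => ?_
      have h0 : (0 : Fin (k + 1)) ∉ ω.map (Fin.succEmb k) := by
        intro h
        obtain ⟨i, -, hi⟩ := Finset.mem_map.1 h
        exact absurd hi (Fin.succ_ne_zero i)
      have e1 : ∑ i ∈ ω.map (Fin.succEmb k), (Fin.cons a h : Fin (k + 1) → V) i = ∑ i ∈ ω, h i := by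
        rw [Finset.sum_map]
        refine Finset.sum_congr rfl fun i _ => ?_
        simp
      have e2 : ∑ i ∈ insert 0 (ω.map (Fin.succEmb k)), (Fin.cons a h : Fin (k + 1) → V) i =
          a + ∑ i ∈ ω, h i := by
        rw [Finset.sum_insert h0, e1]
        rfl
      rw [e1, e2]
      simp only [hfa]
      congr 2
      abel
    have hcard : (Fintype.card (Fin (k + 1) → V) : ℝ) =
        (Fintype.card V : ℝ) * (Fintype.card (Fin k → V) : ℝ) := by
      rw [Fintype.card_fun, Fintype.card_fun, Fintype.card_fin, Fintype.card_fin]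
      push_cast
      ring
    rw [hP, hcard, pow_succ, mul_comm (2 ^ k) 2, pow_mul, hsq]
    refine hjensen.trans ?_
    have h1 : ∀ a : V, (1 / (Fintype.card V : ℝ)) * m a ^ (2 ^ k) ≤
        (1 / (Fintype.card V : ℝ)) * ((∑ x, ∑ h : Fin k → V, ∏ ω : Finset (Fin k),
          fa a (x + ∑ i ∈ ω, h i)) / ((Fintype.card V : ℝ) * (Fintype.card (Fin k → V) : ℝ))) :=
      fun a => mul_le_mul_of_nonneg_left (ih (fa a)) (by positivity)
    refine (Finset.sum_le_sum fun a _ => h1 a).trans (le_of_eq ?_)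
    rw [← Finset.mul_sum, ← Finset.sum_div]
    have hk0 : (Fintype.card (Fin k → V) : ℝ) ≠ 0 := by
      rw [Fintype.card_fun]
      push_cast
      positivity
    field_simp

theorem gcs_gen (k : ℕ) (g φ : V → ℝ)
    (hφ : ∀ (x : V) (h : Fin k → V), ∏ ω : Finset (Fin k), φ (x + ∑ i ∈ ω, h i) = 1) :
    ((∑ x, g x * φ x) / (Fintype.card V : ℝ)) ^ (2 ^ k) ≤
    (∑ x, ∑ h : Fin k → V, ∏ ω : Finset (Fin k), g (x + ∑ i ∈ ω, h i)) /
      ((Fintype.card V : ℝ) * (Fintype.card (Fin k → V) : ℝ)) := by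
  have h1 := gcs_main k fun x => g x * φ x
  simp only [Finset.prod_mul_distrib, hφ, mul_one] at h1
  exact h1

end

end Pool.Agent.Q222.LP
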