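import Pool.Agent.Q283.LP.Stm2
import Pool.Agent.Q222.LP.GCSg

/-!
# Project LP, job GCS
-/

set_option autoImplicit false

open scoped Classical

namespace Pool.Agent.Q222.LP

/-- JOB LP-GCS. -/
theorem t_GCS : Q283.LP.S_GCS := fun V _ _ k g φ h => gcs_gen k g φ h

end Pool.Agent.Q222.LP
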