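import Pool.Agent.Q222.LP.TR2

/-!
# Project LP, job TR
-/

set_option autoImplicit false

open scoped Classical
open Finset Filter

namespace Pool.Agent.Q222.LP

open Q155.NL (Alm Cl cnt cs mem_cs cnt_mono)
open Q283.NJ (Ac)
open Q283.GM (RC)

theorem cl_eq (ρ : RC) : Cl ρ.Φ = Ac fun p => ρ.Φ.P p := by
  funext n
  refine propext ⟨fun h => ⟨h.1, fun p hp hd => h.2 p (Nat.mem_primeFactors.2 ⟨hp, hd, h.1.ne_zero⟩)⟩,
    fun h => ⟨h.1, fun p hp => h.2 p (Nat.prime_of_mem_primeFactors hp)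
      (Nat.dvd_of_mem_primeFactors hp)⟩⟩

theorem mrd_cls (ρ : RC) : Mrd (fun p => ρ.Φ.P p) ρ.δ := by
  obtain ⟨C, hC⟩ := ρ.up
  refine ⟨C, fun y hy => ?_⟩
  refine le_trans (le_of_eq ?_) (hC y hy)
  refine sum_congr ?_ fun _ _ => rfl
  ext p
  rw [mem_filter, mem_filter]
  constructor
  · rintro ⟨h1, h2, h3⟩
    exact ⟨h1, h3⟩
  · rintro ⟨h1, h2⟩
    exact ⟨h1, ((ρ.P_iff p).1 h2).1, h2⟩

theorem mrd_co (ρ : RC) : Mrd (fun p => ¬ ρ.Φ.P p) (1 - ρ.δ) := by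
  obtain ⟨C, hC⟩ := ρ.mert
  refine ⟨C, fun y hy => ?_⟩
  have h := hC y hy
  unfold Pool.Agent.Y302.CQ.P2 at h
  exact (le_of_eq (Q283.GM.sumf_congr (fun p => Iff.rfl) _ _)).trans h

/-- JOB LP-TR. -/
theorem t_TR : Q283.LP.S_TR := by
  intro ρ T hT
  rw [cl_eq] at hT
  have h := alm_sp ρ.δ_pos ρ.δ_le (mrd_cls ρ) (mrd_co ρ) hT
  exact h

end Pool.Agent.Q222.LP
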