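import Mathlib

/-!
# Project LP: from the single values to all sets of values, general form
-/

set_option autoImplicit false

open scoped Classical

namespace Pool.Agent.Q222.LP

open Finset Filter

section
variable {M : Type} [Fintype M]

/-- the box -/
noncomputable def box (M : Type) [Fintype M] (B : ℕ) : Finset (M → ℕ) :=
  Fintype.piFinset fun _ => Finset.range (B + 1)

theorem mem_box {B : ℕ} {r : M → ℕ} : r ∈ box M B ↔ ∀ j, r j ≤ B := by
  simp [box, Fintype.mem_piFinset]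

theorem sum_box (al : ℕ → ℝ) (B : ℕ) :
    ∑ r ∈ box M B, ∏ j, al (r j) = (∑ k ∈ Finset.range (B + 1), al k) ^ Fintype.card M := by
  unfold box
  rw [← Finset.prod_univ_sum]
  simp

theorem sum_le_one {al : ℕ → ℝ} (h0 : ∀ r, 0 ≤ al r) (hs : HasSum al 1)
    (s : Finset (M → ℕ)) : ∑ r ∈ s, ∏ j, al (r j) ≤ 1 := by
  set B : ℕ := s.sup fun r => Finset.univ.sup r with hB
  have hsub : s ⊆ box M B := by
    intro r hr
    rw [mem_box]
    intro j
    exact (Finset.le_sup (f := r) (Finset.mem_univ j)).trans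
      (Finset.le_sup (f := fun r : M → ℕ => Finset.univ.sup r) hr)
  calc ∑ r ∈ s, ∏ j, al (r j) ≤ ∑ r ∈ box M B, ∏ j, al (r j) :=
        Finset.sum_le_sum_of_subset_of_nonneg hsub fun _ _ _ => Finset.prod_nonneg fun _ _ => h0 _
    _ = (∑ k ∈ Finset.range (B + 1), al k) ^ Fintype.card M := sum_box al B
    _ ≤ 1 := by
        refine pow_le_one₀ (Finset.sum_nonneg fun k _ => h0 k) ?_
        exact sum_le_hasSum _ (fun k _ => h0 k) hs

theorem summ_w {al : ℕ → ℝ} (h0 : ∀ r, 0 ≤ al r) (hs : HasSum al 1) :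
    Summable fun r : M → ℕ => ∏ j, al (r j) :=
  summable_of_sum_le (fun _ => Finset.prod_nonneg fun _ _ => h0 _) (sum_le_one h0 hs)

theorem exists_box {al : ℕ → ℝ} (hs : HasSum al 1) {ε : ℝ} (hε : 0 < ε) :
    ∃ B : ℕ, 1 - ε ≤ ∑ r ∈ box M B, ∏ j, al (r j) := by
  have h1 : Tendsto (fun B : ℕ => (∑ k ∈ Finset.range (B + 1), al k) ^ Fintype.card M) atTop
      (nhds (1 ^ Fintype.card M)) :=
    ((hs.tendsto_sum_nat.comp (tendsto_add_atTop_nat 1))).pow _
  rw [one_pow] at h1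
  have h2 := h1.eventually_const_lt (show 1 - ε < 1 by linarith)
  obtain ⟨B, hB⟩ := h2.exists
  exact ⟨B, by rw [sum_box]; exact hB.le⟩

theorem tsum_bounds {al : ℕ → ℝ} (h0 : ∀ r, 0 ≤ al r) (hs : HasSum al 1) (B : ℕ)
    (R : Set (M → ℕ)) :
    ∑ r ∈ (box M B).filter (fun r => r ∈ R), ∏ j, al (r j) ≤ ∑' r : R, ∏ j, al (r.1 j) ∧
    ∑' r : R, ∏ j, al (r.1 j) ≤ 1 - ∑ r ∈ (box M B).filter (fun r => r ∉ R), ∏ j, al (r j) := by
  have hw := summ_w (M := M) h0 hs
  have hnn : ∀ r : M → ℕ, 0 ≤ ∏ j, al (r j) := fun r => Finset.prod_nonneg fun j _ => h0 _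
  have h1 : ∑' r : R, ∏ j, al (r.1 j) = ∑' r, R.indicator (fun r : M → ℕ => ∏ j, al (r j)) r :=
    tsum_subtype R fun r : M → ℕ => ∏ j, al (r j)
  have h2 : Summable (R.indicator fun r : M → ℕ => ∏ j, al (r j)) := hw.indicator R
  constructor
  · rw [h1]
    calc ∑ r ∈ (box M B).filter (fun r => r ∈ R), ∏ j, al (r j)
        = ∑ r ∈ (box M B).filter (fun r => r ∈ R), R.indicator (fun r : M → ℕ => ∏ j, al (r j)) r := by
          refine Finset.sum_congr rfl fun r hr => ?_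
          rw [Set.indicator_of_mem (Finset.mem_filter.1 hr).2]
      _ ≤ _ := h2.sum_le_tsum _ fun r _ => Set.indicator_nonneg (fun r _ => hnn r) r
  · rw [h1, le_sub_iff_add_le]
    refine le_of_tendsto_of_tendsto' (h2.hasSum.add_const _) (tendsto_const_nhds (x := (1 : ℝ)))
      fun s => ?_
    set s' : Finset (M → ℕ) := s.filter (fun r => r ∈ R) ∪ (box M B).filter fun r => r ∉ R with hs'
    have hd : Disjoint (s.filter (fun r => r ∈ R)) ((box M B).filter fun r => r ∉ R) := by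
      rw [Finset.disjoint_left]
      intro r hr hr'
      exact (Finset.mem_filter.1 hr').2 (Finset.mem_filter.1 hr).2
    have h3 : ∑ r ∈ s, R.indicator (fun r : M → ℕ => ∏ j, al (r j)) r =
        ∑ r ∈ s.filter (fun r => r ∈ R), ∏ j, al (r j) := by
      rw [Finset.sum_filter]
      refine Finset.sum_congr rfl fun r _ => ?_
      rw [Set.indicator_apply]
    rw [h3, ← Finset.sum_union hd]
    exact sum_le_one h0 hs _

theorem share_bounds {Ω : Type} [Fintype Ω] [Nonempty Ω] (rk : Ω → M → ℕ) (B : ℕ)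
    (R : Set (M → ℕ)) :
    ∑ r ∈ (box M B).filter (fun r => r ∈ R),
      ((univ.filter fun ω => ∀ j, rk ω j = r j).card : ℝ) / (Fintype.card Ω : ℝ) ≤
      ((univ.filter fun ω => rk ω ∈ R).card : ℝ) / (Fintype.card Ω : ℝ) := by
  rw [← Finset.sum_div]
  refine div_le_div_of_nonneg_right ?_ (Nat.cast_nonneg _)
  rw [← Nat.cast_sum, Nat.cast_le]
  have h1 : ∑ r ∈ (box M B).filter (fun r => r ∈ R), (univ.filter fun ω => ∀ j, rk ω j = r j).card =
      (univ.filter fun ω => rk ω ∈ (box M B).filter (fun r => r ∈ R)).card := by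
    rw [Finset.card_eq_sum_card_fiberwise (f := rk) (t := (box M B).filter (fun r => r ∈ R))]
    · refine Finset.sum_congr rfl fun r hr => ?_
      congr 1
      ext ω
      simp only [Finset.mem_filter, Finset.mem_univ, true_and]
      constructor
      · intro h
        have : rk ω = r := funext h
        rw [this]
        exact ⟨Finset.mem_filter.1 hr, rfl⟩
      · rintro ⟨-, h⟩ j
        rw [h]
    · intro ω hω
      exact (Finset.mem_filter.1 (Finset.mem_coe.1 hω)).2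
  rw [h1]
  refine Finset.card_le_card fun ω hω => ?_
  rw [Finset.mem_filter] at hω ⊢
  exact ⟨Finset.mem_univ _, (Finset.mem_filter.1 hω.2).2⟩

omit [Fintype M] in
theorem share_compl {Ω : Type} [Fintype Ω] [Nonempty Ω] (rk : Ω → M → ℕ) (R R' : Set (M → ℕ))
    (h : ∀ r, r ∈ R' ↔ r ∉ R) :
    ((univ.filter fun ω => rk ω ∈ R).card : ℝ) / (Fintype.card Ω : ℝ) =
      1 - ((univ.filter fun ω => rk ω ∈ R').card : ℝ) / (Fintype.card Ω : ℝ) := by
  have h1 : (univ.filter fun ω => rk ω ∈ R).card + (univ.filter fun ω => rk ω ∈ R').card =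
      Fintype.card Ω := by
    have := Finset.card_filter_add_card_filter_not (s := (univ : Finset Ω)) (fun ω => rk ω ∈ R)
    rw [← Finset.card_univ, ← this]
    congr 2
    ext ω
    simp [h]
  have h2 : (Fintype.card Ω : ℝ) ≠ 0 := by exact_mod_cast Fintype.card_ne_zero
  rw [eq_sub_iff_add_eq, ← add_div, div_eq_one_iff_eq h2]
  exact_mod_cast h1

theorem tv_gen {al : ℕ → ℝ} (h0 : ∀ r, 0 ≤ al r) (hs : HasSum al 1) (M : Type) [Fintype M]
    (ε : ℝ) (hε : 0 < ε) : ∃ (B : ℕ) (ε' : ℝ), 0 < ε' ∧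
    ∀ (Ω : Type) [Fintype Ω] [Nonempty Ω] (rk : Ω → M → ℕ),
    (∀ r : M → ℕ, (∀ j, r j ≤ B) → |((univ.filter fun ω => ∀ j, rk ω j = r j).card : ℝ) /
      (Fintype.card Ω : ℝ) - ∏ j, al (r j)| ≤ ε') →
    ∀ R : Set (M → ℕ), |((univ.filter fun ω => rk ω ∈ R).card : ℝ) / (Fintype.card Ω : ℝ) -
      ∑' r : R, ∏ j, al (r.1 j)| ≤ ε := by
  obtain ⟨B, hB⟩ := exists_box (M := M) hs (show 0 < ε / 4 by positivity)
  set n : ℝ := ((box M B).card : ℝ) with hn
  have hn0 : 0 ≤ n := Nat.cast_nonneg _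
  refine ⟨B, ε / (4 * (n + 1)), by positivity, ?_⟩
  intro Ω _ _ rk hrk R
  set ε' : ℝ := ε / (4 * (n + 1)) with hε'
  have hε'0 : 0 < ε' := by positivity
  have hnε : n * ε' ≤ ε / 4 := by
    rw [hε', ← mul_div_assoc, div_le_div_iff₀ (by positivity) (by positivity)]
    nlinarith
  set p : (M → ℕ) → ℝ := fun r => ((univ.filter fun ω => ∀ j, rk ω j = r j).card : ℝ) /
    (Fintype.card Ω : ℝ) with hp
  set w : (M → ℕ) → ℝ := fun r => ∏ j, al (r j) with hw
  have hpw : ∀ r ∈ box M B, |p r - w r| ≤ ε' := fun r hr => hrk r (mem_box.1 hr)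
  have hsplit : ∀ (x : (M → ℕ) → ℝ), ∑ r ∈ box M B, x r =
      ∑ r ∈ (box M B).filter (fun r => r ∈ R), x r +
      ∑ r ∈ (box M B).filter (fun r => r ∉ R), x r := fun x =>
    (Finset.sum_filter_add_sum_filter_not _ _ _).symm
  have hdiff : ∀ (S : Finset (M → ℕ)), S ⊆ box M B →
      |∑ r ∈ S, p r - ∑ r ∈ S, w r| ≤ S.card * ε' := by
    intro S hS
    rw [← Finset.sum_sub_distrib]
    refine (Finset.abs_sum_le_sum_abs _ _).trans ?_
    calc ∑ r ∈ S, |p r - w r| ≤ ∑ _r ∈ S, ε' := Finset.sum_le_sum fun r hr => hpw r (hS hr)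
      _ = S.card * ε' := by rw [Finset.sum_const, nsmul_eq_mul]
  have hcards : (((box M B).filter (fun r => r ∈ R)).card : ℝ) +
      (((box M B).filter (fun r => r ∉ R)).card : ℝ) = n := by
    rw [hn]
    exact_mod_cast Finset.card_filter_add_card_filter_not (s := box M B) (fun r => r ∈ R)
  have d1 := hdiff _ (Finset.filter_subset (fun r => r ∈ R) (box M B))
  have d2 := hdiff _ (Finset.filter_subset (fun r => r ∉ R) (box M B))
  obtain ⟨t1, t2⟩ := tsum_bounds h0 hs B R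
  have s1 := share_bounds rk B R
  obtain ⟨R', hR'⟩ : ∃ R' : Set (M → ℕ), ∀ r, r ∈ R' ↔ r ∉ R := ⟨Rᶜ, fun r => Iff.rfl⟩
  have s2 := share_bounds rk B R'
  have s3 := share_compl rk R R' hR'
  have s4 : ∑ r ∈ (box M B).filter (fun r => r ∉ R), p r ≤
      ((univ.filter fun ω => rk ω ∈ R').card : ℝ) / (Fintype.card Ω : ℝ) := by
    refine le_trans (le_of_eq ?_) s2
    refine Finset.sum_congr ?_ fun _ _ => rfl
    ext r
    simp [hR']
  have hsw := hsplit w
  rw [abs_le] at d1 d2 ⊢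
  set a := ((univ.filter fun ω => rk ω ∈ R).card : ℝ) / (Fintype.card Ω : ℝ)
  set b := ∑' r : R, ∏ j, al (r.1 j)
  set ca : ℝ := (((box M B).filter (fun r => r ∈ R)).card : ℝ)
  set cb : ℝ := (((box M B).filter (fun r => r ∉ R)).card : ℝ)
  have hca : 0 ≤ ca := Nat.cast_nonneg _
  have hcb : 0 ≤ cb := Nat.cast_nonneg _
  have e1 : ca * ε' ≤ n * ε' := mul_le_mul_of_nonneg_right (by linarith) hε'0.le
  have e2 : cb * ε' ≤ n * ε' := mul_le_mul_of_nonneg_right (by linarith) hε'0.le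
  constructor
  · linarith [d1.1, d2.1]
  · linarith [d1.1, d2.1]

end

end Pool.Agent.Q222.LP
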