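import Pool.Agent.Q283.LP.Stm2
import Pool.Agent.Q222.LP.TVg

/-!
# Project LP, job TV
-/

set_option autoImplicit false

open scoped Classical

namespace Pool.Agent.Q222.LP

/-- JOB LP-TV. -/
theorem t_TV : Q283.LP.S_TV := by
  intro M _ ε hε
  exact tv_gen (fun r => (Q283.GS.al_pos r).le) Q283.GS.hasSum_al M ε hε

end Pool.Agent.Q222.LP
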