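import Pool.Agent.Q283.LP.Stm2

/-!
# Project LP, job X14
-/

set_option autoImplicit false

open scoped Classical
open Finset

namespace Pool.Agent.Q222.LP

open Q283.LP (r14 f14 par14)
open Q283.GM (RC Fam rk Kr mem_Kr)
open Pool.Agent.Y687 (InertT)
open Pool.Agent.Y687.JQ (CL CL_iff fD det_iff of_adm)
open Pool.Agent.Y703.CQ (nr cu Sol Gd)

theorem A14 (p : ℕ) : r14.Φ.A p ↔ p.Prime ∧ p % 168 ∈ ((range 168).filter fun a =>
    a % 8 = 1 ∧ (a % 7 = 1 ∨ a % 7 = 2 ∨ a % 7 = 4) ∧ a % 3 ≠ 0) := Iff.rfl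

theorem B14 (p : ℕ) : r14.Φ.B p ↔ p.Prime ∧ p % 168 ∈ ((range 168).filter fun b =>
    (b % 8 = 3 ∨ b % 8 = 5) ∧ (b % 7 = 3 ∨ b % 7 = 5 ∨ b % 7 = 6) ∧ b % 3 ≠ 0) := Iff.rfl

theorem three_iff {p : ℕ} (hp : p.Prime) : p % 3 ≠ 0 ↔ p ≠ 3 := by
  constructor
  · rintro h rfl
    exact h rfl
  · intro h h3
    exact h ((Nat.prime_dvd_prime_iff_eq Nat.prime_three hp).1 (Nat.dvd_of_mod_eq_zero h3)).symm

theorem A14' (p : ℕ) : r14.Φ.A p ↔ Pool.Agent.Z701.Sp p := by
  rw [A14, mem_filter, mem_range]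
  unfold Pool.Agent.Z701.Sp
  constructor
  · rintro ⟨h1, h2, h3, h4, h5⟩
    exact ⟨h1, by omega, by omega⟩
  · rintro ⟨h1, h2, h3⟩
    have h4 : p % 3 ≠ 0 := by
      rw [three_iff h1]
      rintro rfl
      norm_num at h2
    exact ⟨h1, by omega, by omega, by omega, by omega⟩

theorem B14' (p : ℕ) : r14.Φ.B p ↔ (p ≠ 3 ∧ InertT p) := by
  rw [B14, mem_filter, mem_range]
  unfold InertT
  constructor
  · rintro ⟨h1, h2, h3, h4, h5⟩
    have h6 : p % 3 ≠ 0 := by omega
    exact ⟨(three_iff h1).1 h6, h1, by omega, by omega⟩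
  · rintro ⟨h0, h1, h2, h3⟩
    have h4 : p % 3 ≠ 0 := (three_iff h1).2 h0
    exact ⟨h1, by omega, by omega, by omega, by omega⟩

theorem P14' (p : ℕ) : r14.Φ.P p ↔ (Pool.Agent.Z701.Sp p ∨ (p ≠ 3 ∧ InertT p)) := by
  unfold Fam.P
  rw [A14', B14']

theorem par_sum (S : Finset ℕ) : ∑ p ∈ S, par14 p = 0 ↔ (S.filter fun p => p % 8 = 5).card % 2 = 0 := by
  have h : ∑ p ∈ S, par14 p = (((S.filter fun p => p % 8 = 5).card : ℕ) : ZMod 2) := by
    unfold par14
    rw [Finset.sum_boole]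
  rw [h, ZMod.natCast_eq_zero_iff]
  omega

theorem act_iff {p : ℕ} (hP : r14.Φ.P p) : r14.Φ.A p ↔ p % 8 = 1 := by
  rw [P14'] at hP
  rw [A14']
  constructor
  · intro h
    exact h.2.1
  · intro h
    rcases hP with h1 | ⟨-, -, h2, -⟩
    · exact h1
    · omega

theorem fin_Kr (Φ : Fam) (f : ℕ → ZMod 2) (S : Finset ℕ) : Module.Finite (ZMod 2) (Kr Φ f S) := by
  have hinj : Function.Injective (fun x : Kr Φ f S => fun p : S => x.1 p) := by
    intro x y h
    refine Subtype.ext (funext fun p => ?_)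
    by_cases hp : p ∈ S
    · exact congrFun h ⟨p, hp⟩
    · rw [(mem_Kr.1 x.2).1 p fun h => hp h.1, (mem_Kr.1 y.2).1 p fun h => hp h.1]
  have : Finite (Kr Φ f S) := Finite.of_injective _ hinj
  exact Module.Finite.of_finite

theorem rk_zero (Φ : Fam) (f : ℕ → ZMod 2) (S : Finset ℕ) : rk Φ f S = 0 ↔ ∀ x ∈ Kr Φ f S, x = 0 := by
  have := fin_Kr Φ f S
  unfold rk
  rw [Submodule.finrank_eq_zero, Submodule.eq_bot_iff]

theorem gd_iff {S : Finset ℕ} (hS : ∀ p ∈ S, r14.Φ.P p) :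
    Gd fD S ↔ rk r14.Φ f14 S = 0 := by
  rw [rk_zero]
  constructor
  · intro h x hx
    obtain ⟨h1, h2⟩ := mem_Kr.1 hx
    have h3 : ∀ q ∈ S, cu x q = x q := by
      intro q hq
      unfold cu
      split_ifs with h8
      · rfl
      · exact (h1 q fun h' => h8 ((act_iff (hS q hq)).1 h'.2)).symm
    have h4 : Sol fD S x := by
      intro p hp h8
      have h5 := h2 p hp ((act_iff (hS p hp)).2 h8)
      have h6 : f14 p = fD p := by
        unfold f14
        rw [if_pos h8]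
      rw [h6] at h5
      rw [← h5]
      congr 1
      exact sum_congr rfl fun q hq => by rw [h3 q hq]
    funext p
    by_cases hp : p ∈ S ∧ r14.Φ.A p
    · exact h x h4 p hp.1 ((act_iff (hS p hp.1)).1 hp.2)
    · exact h1 p hp
  · intro h x hx p hp h8
    have h1 : (fun q => if q ∈ S then cu x q else 0) ∈ Kr r14.Φ f14 S := by
      rw [mem_Kr]
      constructor
      · intro q hq
        beta_reduce
        split_ifs with hqS
        · unfold cu
          rw [if_neg fun h8' => hq ⟨hqS, (act_iff (hS q hqS)).2 h8'⟩]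
        · rfl
      · intro q hq hA
        have h8' := (act_iff (hS q hq)).1 hA
        have h5 := hx q hq h8'
        have h6 : f14 q = fD q := by
          unfold f14
          rw [if_pos h8']
        have h7 : cu x q = x q := by
          unfold cu
          rw [if_pos h8']
        beta_reduce
        rw [if_pos hq, h6, h7, ← h5]
        congr 1
        exact sum_congr rfl fun r hr => by rw [if_pos hr]
    have h2 := congrFun (h _ h1) p
    beta_reduce at h2
    rw [if_pos hp] at h2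
    unfold cu at h2
    rw [if_pos h8] at h2
    exact h2

/-- JOB LP-X14. -/
theorem t_X14 : Q283.LP.S_X14 := by
  refine ⟨fun S => ?_, fun D hD => ?_, ?_⟩
  · rw [CL_iff, par_sum]
    refine and_congr (forall₂_congr fun p _ => ?_) Iff.rfl
    rw [P14']
  · rw [det_iff]
    refine gd_iff fun p hp => ?_
    rw [P14']
    exact (CL_iff.1 (of_adm hD).1).1 p hp
  · unfold Q283.GS.al
    rw [show Pool.Agent.Y697.PQ.cf 0 = 1 from rfl, mul_one]
    rfl

end Pool.Agent.Q222.LP
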