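import Pool.Agent.Q283.NJ.F3
import Pool.Agent.Q283.LP.Stm2

/-!
# Project LP, job TR: upper bounds for the numbers with all prime factors in a set of primes of given density
-/

set_option autoImplicit false

open scoped Classical
open Finset Filter

namespace Pool.Agent.Q222.LP

open Q155.NL (Alm cnt cs mem_cs cnt_mono)
open Q283.NJ (Ac LA mem_LA inj_LA cs_LA sum_LA rec_le sq_few)

/-- a power of the logarithm -/
noncomputable def pw (d : ℝ) (X : ℕ) : ℝ := (1 + Real.log X) ^ d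

theorem base_ge (X : ℕ) : (1 : ℝ) ≤ 1 + Real.log X := by
  linarith [Real.log_natCast_nonneg X]

theorem pw_ge {d : ℝ} (hd : 0 ≤ d) (X : ℕ) : 1 ≤ pw d X :=
  Real.one_le_rpow (base_ge X) hd

theorem pw_mono {d : ℝ} (hd : 0 ≤ d) {X Y : ℕ} (h : X ≤ Y) (hX : 1 ≤ X) : pw d X ≤ pw d Y := by
  unfold pw
  refine Real.rpow_le_rpow (by linarith [base_ge X]) ?_ hd
  have h1 : Real.log X ≤ Real.log Y := Real.log_le_log (by exact_mod_cast hX) (by exact_mod_cast h)
  linarith

theorem pw_tendsto {d : ℝ} (hd : 0 < d) : Tendsto (pw d) atTop atTop := by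
  unfold pw
  refine (tendsto_rpow_atTop hd).comp ?_
  exact tendsto_atTop_add_const_left _ _ (Real.tendsto_log_atTop.comp tendsto_natCast_atTop_atTop)

theorem pw_mul (d : ℝ) (X : ℕ) : pw d X * pw (1 - d) X = 1 + Real.log X := by
  unfold pw
  rw [← Real.rpow_add (by linarith [base_ge X])]
  rw [show d + (1 - d) = 1 by ring, Real.rpow_one]

/-- Mertens' bound for the set `A` -/
def Mrd (A : ℕ → Prop) (d : ℝ) : Prop := ∃ C : ℝ, ∀ y : ℕ, 3 ≤ y →
    ∑ p ∈ (range (y + 1)).filter (fun p => p.Prime ∧ A p), (1 : ℝ) / p ≤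
      d * Real.log (Real.log y) + C

theorem rLA_le {A : ℕ → Prop} {d : ℝ} (hd : 0 ≤ d) (hA : Mrd A d) : ∃ C : ℝ, 1 ≤ C ∧ ∀ X : ℕ, 1 ≤ X →
    ∑ S ∈ LA A X, (1 : ℝ) / ((∏ p ∈ S, p : ℕ) : ℝ) ≤ C * pw d X := by
  obtain ⟨C, hC⟩ := hA
  refine ⟨max 2 (Real.exp C), (by norm_num : (1 : ℝ) ≤ 2).trans (le_max_left _ _), fun X hX => ?_⟩
  have hs := pw_ge hd X
  rcases Nat.lt_or_ge X 3 with h3 | h3
  · have h1 : ∑ S ∈ LA A X, (1 : ℝ) / ((∏ p ∈ S, p : ℕ) : ℝ) ≤ 2 := by
      have h2 : ∑ S ∈ LA A X, (1 : ℝ) / ((∏ p ∈ S, p : ℕ) : ℝ) ≤ ∑ S ∈ LA A X, (1 : ℝ) := by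
        refine sum_le_sum fun S hS => ?_
        rw [mem_LA] at hS
        have h4 : 0 < ∏ p ∈ S, p := prod_pos fun q hq => (hS.1 q hq).1.pos
        rw [div_le_one (by exact_mod_cast h4)]
        exact_mod_cast h4
      refine h2.trans ?_
      rw [sum_const, nsmul_eq_mul, mul_one]
      have h4 : (LA A X).card ≤ 2 := by
        rw [← card_image_of_injOn (inj_LA A X), ← cs_LA]
        refine (card_le_card (filter_subset _ _)).trans ?_
        rw [Nat.card_Icc]
        omega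
      exact_mod_cast h4
    have h4 : (2 : ℝ) ≤ max 2 (Real.exp C) := le_max_left _ _
    nlinarith
  · have hl : 1 < Real.log X := by
      have h4 : (Real.exp 1) < X := by
        have := Real.exp_one_lt_d9
        have h5 : (3 : ℝ) ≤ X := by exact_mod_cast h3
        linarith
      rw [Real.lt_log_iff_exp_lt (by positivity)]
      exact h4
    have h1 := (sum_LA A X).trans (Real.exp_le_exp.2 (hC X h3))
    rw [Real.exp_add] at h1
    have h2 : Real.exp (d * Real.log (Real.log X)) = (Real.log X) ^ d := by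
      rw [Real.rpow_def_of_pos (by linarith)]
      congr 1
      ring
    have h4 : (Real.log X) ^ d ≤ pw d X := by
      unfold pw
      exact Real.rpow_le_rpow (by linarith) (by linarith) hd
    rw [h2] at h1
    refine h1.trans ?_
    rw [mul_comm]
    exact mul_le_mul (le_max_right _ _) h4 (Real.rpow_nonneg (by linarith) _) (by positivity)

/-- the sum of the reciprocals -/
theorem r_le {A : ℕ → Prop} {d : ℝ} (hd : 0 ≤ d) (hA : Mrd A d) : ∃ C : ℝ, 1 ≤ C ∧ ∀ X : ℕ, 1 ≤ X →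
    ∑ n ∈ cs (Ac A) X, (1 : ℝ) / n ≤ C * pw d X := by
  obtain ⟨C, h1, h⟩ := rLA_le hd hA
  refine ⟨C, h1, fun X hX => ?_⟩
  rw [cs_LA, sum_image (inj_LA A X)]
  exact h X hX

/-- the number -/
theorem g_le {A : ℕ → Prop} {d : ℝ} (hd : 0 ≤ d) (hd1 : d ≤ 1) (hA : Mrd A d) : ∃ C : ℝ, 1 ≤ C ∧
    ∀ X : ℕ, 1 ≤ X → ((cnt (Ac A) X : ℕ) : ℝ) ≤ C * (X / pw (1 - d) X) := by
  obtain ⟨C, h1, h⟩ := rLA_le hd hA
  obtain ⟨C₁, h11, hS⟩ := Pool.Agent.Y488.CX.t_SIE
  refine ⟨max 2 (C₁ * C * 2), (by norm_num : (1 : ℝ) ≤ 2).trans (le_max_left _ _), fun X hX => ?_⟩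
  have hs := pw_ge (sub_nonneg.2 hd1) X
  have hX0 : (0 : ℝ) < X := by exact_mod_cast hX
  have hcard : cnt (Ac A) X = (LA A X).card := by
    unfold cnt
    rw [cs_LA, card_image_of_injOn (inj_LA A X)]
  rcases Nat.lt_or_ge X 3 with h3 | h3
  · have h4 : cnt (Ac A) X ≤ X := by
      refine (card_le_card (filter_subset _ _)).trans ?_
      rw [Nat.card_Icc]
      omega
    have h5 : ((cnt (Ac A) X : ℕ) : ℝ) ≤ X := by exact_mod_cast h4
    have h6 : pw (1 - d) X ≤ 2 := by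
      have h7 : Real.log X ≤ Real.log 2 := Real.log_le_log hX0 (by exact_mod_cast (by omega : X ≤ 2))
      have h8 := Real.log_two_lt_d9
      have h9 : pw (1 - d) X ≤ (1 + Real.log X) ^ (1 : ℝ) :=
        Real.rpow_le_rpow_of_exponent_le (base_ge X) (by linarith)
      rw [Real.rpow_one] at h9
      linarith
    have h7 : (X : ℝ) ≤ 2 * (X / pw (1 - d) X) := by
      rw [mul_div_assoc', le_div_iff₀ (by linarith)]
      nlinarith
    refine h5.trans (h7.trans ?_)
    exact mul_le_mul_of_nonneg_right (le_max_left _ _) (by positivity)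
  · have hl : 1 < Real.log X := by
      have h4 : (Real.exp 1) < X := by
        have := Real.exp_one_lt_d9
        have h5 : (3 : ℝ) ≤ X := by exact_mod_cast h3
        linarith
      rw [Real.lt_log_iff_exp_lt (by positivity)]
      exact h4
    have h4 := hS X (LA A X) hX (fun S hS => by
      rw [mem_LA] at hS
      exact ⟨fun p hp => (hS.1 p hp).1, hS.2⟩) (fun S hS T hT => by
      rw [mem_LA] at hS ⊢
      refine ⟨fun p hp => hS.1 p (hT hp), le_trans ?_ hS.2⟩
      exact Nat.le_of_dvd (prod_pos fun q hq => (hS.1 q hq).1.pos) (prod_dvd_prod_of_subset _ _ _ hT))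
    rw [← hcard] at h4
    have h5 : ((cnt (Ac A) X : ℕ) : ℝ) * Real.log X ≤ C₁ * X * (C * pw d X) :=
      h4.trans (mul_le_mul_of_nonneg_left (h X hX) (by positivity))
    have hsp : 0 < pw d X := by linarith [pw_ge hd X]
    have hsp1 : 0 < pw (1 - d) X := by linarith
    have hm := pw_mul d X
    have h7 : ((cnt (Ac A) X : ℕ) : ℝ) ≤ C₁ * C * 2 * (X / pw (1 - d) X) := by
      rw [mul_div_assoc', le_div_iff₀ hsp1]
      have h9 : (0 : ℝ) ≤ ((cnt (Ac A) X : ℕ) : ℝ) := Nat.cast_nonneg _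
      have h8 : ((cnt (Ac A) X : ℕ) : ℝ) * (1 + Real.log X) ≤ 2 * (C₁ * X * (C * pw d X)) := by
        nlinarith
      rw [← hm] at h8
      have h10 : (((cnt (Ac A) X : ℕ) : ℝ) * pw (1 - d) X) * pw d X ≤ (C₁ * C * 2 * X) * pw d X := by
        nlinarith
      exact le_of_mul_le_mul_right h10 hsp
    refine h7.trans ?_
    exact mul_le_mul_of_nonneg_right (le_max_right _ _) (by positivity)

end Pool.Agent.Q222.LP
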