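import Pool.Agent.Q222.LP.TR1

/-!
# Project LP, job TR: from the class to all numbers (after `Q283.NJ.F2`, `Q283.NJ.F3` of helper283)
-/

set_option autoImplicit false

open scoped Classical
open Finset Filter

namespace Pool.Agent.Q222.LP

open Q155.NL (Alm cnt cs mem_cs cnt_mono)
open Q283.NJ (Ac LA mem_LA inj_LA cs_LA sum_LA rec_le sq_few)

/-- the part with all prime factors in `P` -/
noncomputable def sp (P : ℕ → Prop) (D : ℕ) : ℕ := ∏ p ∈ D.primeFactors.filter (fun p => P p), p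

variable {P : ℕ → Prop}

theorem sp_prime {D p : ℕ} (hp : p ∈ D.primeFactors.filter fun p => P p) :
    p.Prime ∧ P p := by
  rw [mem_filter] at hp
  exact ⟨Nat.prime_of_mem_primeFactors hp.1, hp.2⟩

theorem sp_pf (D : ℕ) : (sp P D).primeFactors = D.primeFactors.filter fun p => P p :=
  Nat.primeFactors_prod fun _ hp => (sp_prime hp).1

theorem sp_sqf (D : ℕ) : Squarefree (sp P D) :=
  Finset.squarefree_prod_of_pairwise_isCoprime (fun x hx y hy hxy => by
    rw [Function.onFun, ← Nat.coprime_iff_isRelPrime]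
    exact (Nat.coprime_primes (sp_prime hx).1 (sp_prime hy).1).2 hxy)
    fun x hx => (sp_prime hx).1.squarefree

theorem sp_ac (D : ℕ) : Ac (fun p => P p) (sp P D) := by
  refine ⟨sp_sqf D, fun p hp hd => ?_⟩
  have h : p ∈ (sp P D).primeFactors := Nat.mem_primeFactors.2 ⟨hp, hd, (sp_sqf D).ne_zero⟩
  rw [sp_pf, mem_filter] at h
  exact h.2

theorem sp_dvd (D : ℕ) : sp P D ∣ D :=
  (prod_dvd_prod_of_subset _ _ _ (filter_subset _ _)).trans (Nat.prod_primeFactors_dvd D)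

theorem sp_congr {D D' : ℕ} (h : ∀ p : ℕ, p.Prime → P p → (p ∣ D ↔ p ∣ D')) (hD : D ≠ 0)
    (hD' : D' ≠ 0) : sp P D = sp P D' := by
  unfold sp
  congr 1
  ext p
  rw [mem_filter, mem_filter, Nat.mem_primeFactors, Nat.mem_primeFactors]
  constructor
  · rintro ⟨⟨h1, h2, -⟩, h3⟩
    exact ⟨⟨h1, (h p h1 h3).1 h2, hD'⟩, h3⟩
  · rintro ⟨⟨h1, h2, -⟩, h3⟩
    exact ⟨⟨h1, (h p h1 h3).2 h2, hD⟩, h3⟩

theorem pairs_le {E : ℕ → Prop} (Z : ℕ) :
    cnt (fun n => Squarefree n ∧ E (sp P n)) Z ≤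
      ∑ t ∈ cs (fun t => Ac (fun p => P p) t ∧ E t) (Nat.sqrt Z),
        cnt (Ac fun p => ¬ P p) (Z / t) +
      ∑ u ∈ cs (Ac fun p => ¬ P p) (Nat.sqrt Z),
        cnt (fun t => Ac (fun p => P p) t ∧ E t) (Z / u) := by
  obtain ⟨A1, hA1⟩ : ∃ A1 : ℕ → Prop, A1 = fun t => Ac (fun p => P p) t ∧ E t := ⟨_, rfl⟩
  obtain ⟨A2, hA2⟩ : ∃ A2 : ℕ → Prop, A2 = Ac fun p => ¬ P p := ⟨_, rfl⟩
  rw [← hA1, ← hA2]
  have h1 : cnt (fun n => Squarefree n ∧ E (sp P n)) Z ≤
      (((cs A1 (Nat.sqrt Z)).biUnion fun t => (cs A2 (Z / t)).image fun u => (t, u)) ∪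
      ((cs A2 (Nat.sqrt Z)).biUnion fun u => (cs A1 (Z / u)).image fun t => (t, u))).card := by
    refine card_le_card_of_injOn (fun n => (sp P n, n / sp P n)) ?_ ?_
    · intro n hn
      rw [mem_coe, mem_cs] at hn
      obtain ⟨⟨hn1, hnZ⟩, hsq, hE⟩ := hn
      have hn0 : n ≠ 0 := by omega
      have hd := sp_dvd (P := P) n
      obtain ⟨u, hu⟩ := hd
      have hsp0 : 0 < sp P n := Nat.pos_of_ne_zero (sp_sqf (P := P) n).ne_zero
      have hdiv : n / sp P n = u := Nat.div_eq_of_eq_mul_right hsp0 hu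
      have hu0 : 0 < u := by
        rcases Nat.eq_zero_or_pos u with h | h
        · rw [h, mul_zero] at hu
          exact absurd hu hn0
        · exact h
      have ht : A1 (sp P n) := by
        rw [hA1]
        exact ⟨sp_ac n, hE⟩
      have hcop : Nat.Coprime (sp P n) u := by
        rw [hu] at hsq
        exact Nat.coprime_of_squarefree_mul hsq
      have hu2 : A2 u := by
        rw [hA2]
        refine ⟨?_, fun p hp hpu hp1 => ?_⟩
        · rw [hu] at hsq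
          exact hsq.of_mul_right
        · have h2 : p ∈ (sp P n).primeFactors := by
            rw [sp_pf, mem_filter, Nat.mem_primeFactors]
            exact ⟨⟨hp, hu ▸ (hpu.mul_left _), hn0⟩, hp1⟩
          have h3 := Nat.dvd_of_mem_primeFactors h2
          have h4 := Nat.dvd_gcd h3 hpu
          rw [hcop.gcd_eq_one] at h4
          exact hp.one_lt.ne' (Nat.dvd_one.1 h4)
      have hle : sp P n * u ≤ Z := by rw [← hu]; exact hnZ
      rw [mem_coe, mem_union, mem_biUnion, mem_biUnion]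
      beta_reduce
      rw [hdiv]
      rcases le_or_gt (sp P n) (Nat.sqrt Z) with h | h
      · left
        refine ⟨sp P n, mem_cs.2 ⟨⟨hsp0, h⟩, ht⟩, mem_image.2 ⟨u, mem_cs.2 ⟨⟨hu0, ?_⟩, hu2⟩, rfl⟩⟩
        rw [Nat.le_div_iff_mul_le hsp0, mul_comm]
        exact hle
      · right
        refine ⟨u, mem_cs.2 ⟨⟨hu0, ?_⟩, hu2⟩, mem_image.2 ⟨sp P n, mem_cs.2 ⟨⟨hsp0, ?_⟩, ht⟩, rfl⟩⟩
        · by_contra hc
          rw [not_le] at hc
          have h2 : Nat.sqrt Z + 1 ≤ sp P n := h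
          have h3 : Nat.sqrt Z + 1 ≤ u := hc
          have h4 := Nat.mul_le_mul h2 h3
          have h5 := Nat.lt_succ_sqrt Z
          have h6 : (Nat.sqrt Z).succ * (Nat.sqrt Z).succ = (Nat.sqrt Z + 1) * (Nat.sqrt Z + 1) := rfl
          omega
        · rw [Nat.le_div_iff_mul_le hu0]
          exact hle
    · intro n hn n' hn' h
      rw [mem_coe, mem_cs] at hn hn'
      simp only [Prod.mk.injEq] at h
      have e1 := Nat.mul_div_cancel' (sp_dvd (P := P) n)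
      have e2 := Nat.mul_div_cancel' (sp_dvd (P := P) n')
      rw [← e1, ← e2, h.1, ← h.1, h.2, ← h.1]
  refine h1.trans ((card_union_le _ _).trans (Nat.add_le_add ?_ ?_))
  · exact card_biUnion_le.trans (sum_le_sum fun t _ => card_image_le)
  · exact card_biUnion_le.trans (sum_le_sum fun t _ => card_image_le)

/-- the squarefree numbers -/
theorem sqf_ev {d : ℝ} (hd : 0 < d) (hd1 : d ≤ 1) (hP : Mrd (fun p => P p) d)
    (hP' : Mrd (fun p => ¬ P p) (1 - d)) {T : ℕ → Prop} (hT : Alm (Ac fun p => P p) T) (δ : ℝ)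
    (hδ : 0 < δ) :
    ∀ᶠ Z : ℕ in atTop, ((cnt (fun n => Squarefree n ∧ ¬ T (sp P n)) Z : ℕ) : ℝ) ≤ δ * Z := by
  have hd2 : 0 ≤ 1 - d := sub_nonneg.2 hd1
  obtain ⟨C₁, h11, h1⟩ := r_le hd.le hP
  obtain ⟨C₂, h21, h2⟩ := g_le hd2 (by linarith) hP'
  obtain ⟨C₃, h31, h3⟩ := g_le hd.le hd1 hP
  obtain ⟨C₄, h41, h4⟩ := r_le hd2 hP'
  rw [show 1 - (1 - d) = d by ring] at h2
  obtain ⟨η, hη⟩ : ∃ η : ℝ, η = δ / (2 * (C₁ * C₂ + C₃ * C₄)) := ⟨_, rfl⟩
  have hden : 0 < C₁ * C₂ + C₃ * C₄ := by nlinarith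
  have hη0 : 0 < η := by rw [hη]; positivity
  have hηe : η * (C₁ * C₂ + C₃ * C₄) = δ / 2 := by
    rw [hη]
    field_simp
  obtain ⟨n₀, hn₀⟩ := eventually_atTop.1 (hT η hη0)
  have hsq : Tendsto Nat.sqrt atTop atTop := by
    refine tendsto_atTop.2 fun b => ?_
    filter_upwards [eventually_ge_atTop (b ^ 2)] with n hn
    exact Nat.le_sqrt'.2 hn
  have hsl := ((pw_tendsto hd).comp hsq).eventually_ge_atTop (2 * (C₂ * (n₀ + 1)) / δ)
  filter_upwards [hsl, hsq.eventually_ge_atTop (max 1 n₀)] with Z hZ1 hZ2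
  simp only [Function.comp] at hZ1
  obtain ⟨Y, hY⟩ : ∃ Y, Y = Nat.sqrt Z := ⟨_, rfl⟩
  rw [← hY] at hZ1 hZ2
  have hY1 : 1 ≤ Y := (le_max_left _ _).trans hZ2
  have hYn : n₀ ≤ Y := (le_max_right _ _).trans hZ2
  have hs := pw_ge hd.le Y
  have hs0 : 0 < pw d Y := by linarith
  have ht := pw_ge hd2 Y
  have ht0 : 0 < pw (1 - d) Y := by linarith
  obtain ⟨E, hE⟩ : ∃ E : ℕ → Prop, E = fun t => Ac (fun p => P p) t ∧ ¬ T t := ⟨_, rfl⟩
  have hp := pairs_le (P := P) (E := fun t => ¬ T t) Z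
  rw [← hY, ← hE] at hp
  have hn₀' : ∀ n, n₀ ≤ n → ((cnt E n : ℕ) : ℝ) ≤ η * cnt (Ac fun p => P p) n := by
    rw [hE]
    exact hn₀
  -- the quotients
  have hq : ∀ t, 1 ≤ t → t ≤ Y → Y ≤ Z / t := by
    intro t ht1 ht
    rw [Nat.le_div_iff_mul_le (by omega)]
    refine (Nat.mul_le_mul_left Y ht).trans ?_
    rw [hY]
    exact Nat.sqrt_le Z
  have hqr : ∀ t : ℕ, ((Z / t : ℕ) : ℝ) ≤ Z * (1 / t) := by
    intro t
    rw [mul_one_div]
    exact Nat.cast_div_le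
  -- the first part
  have hA : ((∑ t ∈ cs E Y, cnt (Ac fun p => ¬ P p) (Z / t) : ℕ) : ℝ) ≤
      Z * (C₂ * (n₀ + 1) / pw d Y + η * (C₁ * C₂)) := by
    push_cast
    have hA1 : ∀ t ∈ cs E Y, ((cnt (Ac fun p => ¬ P p) (Z / t) : ℕ) : ℝ) ≤
        C₂ / pw d Y * Z * (1 / t) := by
      intro t ht
      rw [mem_cs] at ht
      have h5 := hq t ht.1.1 ht.1.2
      have h6 := h2 (Z / t) (hY1.trans h5)
      have h7 := pw_mono hd.le h5 hY1
      refine h6.trans ?_
      have h8 : ((Z / t : ℕ) : ℝ) / pw d (Z / t) ≤ (Z * (1 / t)) / pw d Y :=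
        div_le_div₀ (by positivity) (hqr t) hs0 h7
      calc C₂ * (((Z / t : ℕ) : ℝ) / pw d (Z / t)) ≤ C₂ * ((Z * (1 / t)) / pw d Y) :=
            mul_le_mul_of_nonneg_left h8 (by linarith)
        _ = _ := by ring
    refine (sum_le_sum hA1).trans ?_
    rw [← mul_sum]
    have h5 := rec_le hη0.le hn₀' Y
    have h6 := h1 Y hY1
    have h7 : ∑ i ∈ cs E Y, (1 : ℝ) / i ≤ n₀ + 1 + η * (C₁ * pw d Y) :=
      h5.trans (by linarith [mul_le_mul_of_nonneg_left h6 hη0.le])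
    calc C₂ / pw d Y * Z * ∑ i ∈ cs E Y, (1 : ℝ) / i ≤ C₂ / pw d Y * Z * (n₀ + 1 + η * (C₁ * pw d Y)) :=
          mul_le_mul_of_nonneg_left h7 (by positivity)
      _ = Z * (C₂ * (n₀ + 1) / pw d Y + η * (C₁ * C₂)) := by
          field_simp
  have hB : ((∑ u ∈ cs (Ac fun p => ¬ P p) Y, cnt E (Z / u) : ℕ) : ℝ) ≤
      Z * (η * (C₃ * C₄)) := by
    push_cast
    have hB1 : ∀ u ∈ cs (Ac fun p => ¬ P p) Y, ((cnt E (Z / u) : ℕ) : ℝ) ≤
        η * C₃ / pw (1 - d) Y * Z * (1 / u) := by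
      intro u hu
      rw [mem_cs] at hu
      have h5 := hq u hu.1.1 hu.1.2
      have h6 := hn₀' (Z / u) (hYn.trans h5)
      have h7 := h3 (Z / u) (hY1.trans h5)
      have h8 := pw_mono hd2 h5 hY1
      have h9 : ((Z / u : ℕ) : ℝ) / pw (1 - d) (Z / u) ≤ (Z * (1 / u)) / pw (1 - d) Y :=
        div_le_div₀ (by positivity) (hqr u) ht0 h8
      calc ((cnt E (Z / u) : ℕ) : ℝ) ≤ η * (C₃ * (((Z / u : ℕ) : ℝ) / pw (1 - d) (Z / u))) :=
            h6.trans (mul_le_mul_of_nonneg_left h7 hη0.le)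
        _ ≤ η * (C₃ * ((Z * (1 / u)) / pw (1 - d) Y)) :=
            mul_le_mul_of_nonneg_left (mul_le_mul_of_nonneg_left h9 (by linarith)) hη0.le
        _ = _ := by ring
    refine (sum_le_sum hB1).trans ?_
    rw [← mul_sum]
    have h6 := h4 Y hY1
    calc η * C₃ / pw (1 - d) Y * Z * ∑ i ∈ cs (Ac fun p => ¬ P p) Y, (1 : ℝ) / i ≤
          η * C₃ / pw (1 - d) Y * Z * (C₄ * pw (1 - d) Y) := mul_le_mul_of_nonneg_left h6 (by positivity)
      _ = Z * (η * (C₃ * C₄)) := by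
          field_simp
  have h5 : C₂ * ((n₀ : ℝ) + 1) / pw d Y ≤ δ / 2 := by
    rw [div_le_iff₀ hs0]
    rw [div_le_iff₀ hδ] at hZ1
    linarith
  have h6 : ((cnt (fun n => Squarefree n ∧ ¬ T (sp P n)) Z : ℕ) : ℝ) ≤
      ((∑ t ∈ cs E Y, cnt (Ac fun p => ¬ P p) (Z / t) : ℕ) : ℝ) +
      ((∑ u ∈ cs (Ac fun p => ¬ P p) Y, cnt E (Z / u) : ℕ) : ℝ) := by exact_mod_cast hp
  have hZ0 : (0 : ℝ) ≤ Z := Nat.cast_nonneg _
  have h7 : (Z : ℝ) * (C₂ * (n₀ + 1) / pw d Y + η * (C₁ * C₂)) + Z * (η * (C₃ * C₄)) ≤ δ * Z := by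
    have h8 : C₂ * ((n₀ : ℝ) + 1) / pw d Y + η * (C₁ * C₂) + η * (C₃ * C₄) ≤ δ := by
      have : η * (C₁ * C₂) + η * (C₃ * C₄) = δ / 2 := by rw [← hηe]; ring
      linarith
    nlinarith
  linarith

/-- **Almost all numbers, from almost all members of the class.** -/
theorem alm_sp {d : ℝ} (hd : 0 < d) (hd1 : d ≤ 1) (hP : Mrd (fun p => P p) d)
    (hP' : Mrd (fun p => ¬ P p) (1 - d)) {T : ℕ → Prop} (hT : Alm (Ac fun p => P p) T) :
    Alm (fun _ => True) fun D => T (sp P D) := by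
  intro δ hδ
  obtain ⟨K, hK⟩ := exists_nat_gt (2 / δ)
  have hK0 : (0 : ℝ) < K := lt_trans (by positivity) hK
  have hK1 : 1 ≤ K := by exact_mod_cast hK0
  have hKδ : 1 / (K : ℝ) ≤ δ / 2 := by
    rw [div_le_iff₀ hK0]
    rw [div_lt_iff₀ hδ] at hK
    linarith
  obtain ⟨δ', hδ'⟩ : ∃ δ' : ℝ, δ' = δ / 2 / K ^ 3 := ⟨_, rfl⟩
  have hδ'0 : 0 < δ' := by rw [hδ']; positivity
  have hKt : Tendsto (fun X : ℕ => K * X) atTop atTop := tendsto_id.const_mul_atTop' (by omega)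
  filter_upwards [hKt.eventually (sqf_ev hd hd1 hP hP' hT δ' hδ'0)] with X hX
  have hcT : cnt (fun _ => True) X = X := by
    have h0 : cs (fun _ => True) X = Icc 1 X := by
      ext D
      rw [mem_cs, mem_Icc]
      exact ⟨fun h => h.1, fun h => ⟨h, trivial⟩⟩
    unfold cnt
    rw [h0, Nat.card_Icc]
    omega
  rw [hcT]
  have h1 : cnt (fun D => True ∧ ¬ T (sp P D)) X ≤
      ((Icc 1 X).filter fun D => ∃ b, K < b ∧ b ^ 2 ∣ D).card +
      ((Icc 1 K ×ˢ Icc 1 K) ×ˢ (cs (fun n => Squarefree n ∧ ¬ T (sp P n)) (K * X))).card := by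
    have h2 : cs (fun D => True ∧ ¬ T (sp P D)) X ⊆
        ((Icc 1 X).filter fun D => ∃ b, K < b ∧ b ^ 2 ∣ D) ∪
        ((cs (fun D => True ∧ ¬ T (sp P D)) X).filter fun D => ¬ ∃ b, K < b ∧ b ^ 2 ∣ D) := by
      intro D hD
      rw [mem_union, mem_filter, mem_filter]
      by_cases h : ∃ b, K < b ∧ b ^ 2 ∣ D
      · left
        rw [mem_cs] at hD
        exact ⟨mem_Icc.2 hD.1, h⟩
      · right
        exact ⟨hD, h⟩
    refine (card_le_card h2).trans ((card_union_le _ _).trans (Nat.add_le_add_left ?_ _))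
    have h3 : ∀ D : ℕ, ∃ a b : ℕ, 0 < D → 0 < a ∧ 0 < b ∧ b ^ 2 * a = D ∧ Squarefree a := by
      intro D
      rcases Nat.eq_zero_or_pos D with h | h
      · exact ⟨0, 0, fun h' => absurd h' (by omega)⟩
      · obtain ⟨a, b, h1, h2, h3, h4⟩ := Nat.sq_mul_squarefree_of_pos h
        exact ⟨a, b, fun _ => ⟨h1, h2, h3, h4⟩⟩
    choose a b hab using h3
    obtain ⟨g, hg⟩ : ∃ g : ℕ → ℕ, g = fun D =>
      ∏ p ∈ (b D).primeFactors.filter (fun p => P p) \ (a D).primeFactors, p := ⟨_, rfl⟩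
    have hgp : ∀ D, ∀ p ∈ (b D).primeFactors.filter (fun p => P p) \ (a D).primeFactors,
        p.Prime ∧ P p ∧ p ∣ b D ∧ p ∉ (a D).primeFactors := by
      intro D p hp
      rw [Finset.mem_sdiff, mem_filter] at hp
      exact ⟨Nat.prime_of_mem_primeFactors hp.1.1, hp.1.2, Nat.dvd_of_mem_primeFactors hp.1.1, hp.2⟩
    have hg0 : ∀ D, 0 < g D := by
      intro D
      rw [hg]
      exact prod_pos fun p hp => (hgp D p hp).1.pos
    have hgsq : ∀ D, Squarefree (g D) := by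
      intro D
      rw [hg]
      exact Finset.squarefree_prod_of_pairwise_isCoprime (fun x hx y hy hxy => by
        rw [Function.onFun, ← Nat.coprime_iff_isRelPrime]
        exact (Nat.coprime_primes (hgp D x hx).1 (hgp D y hy).1).2 hxy)
        fun x hx => (hgp D x hx).1.squarefree
    have hgd : ∀ D (p : ℕ), p.Prime → (p ∣ g D ↔
        p ∈ (b D).primeFactors.filter (fun p => P p) \ (a D).primeFactors) := by
      intro D p hp
      have h4 : (g D).primeFactors =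
          (b D).primeFactors.filter (fun p => P p) \ (a D).primeFactors := by
        rw [hg]
        exact Nat.primeFactors_prod fun p hp => (hgp D p hp).1
      rw [← h4, Nat.mem_primeFactors]
      exact ⟨fun h => ⟨hp, h, (hg0 D).ne'⟩, fun h => h.2.1⟩
    refine card_le_card_of_injOn (fun D => ((b D, g D), a D * g D)) ?_ ?_
    · intro D hD
      rw [mem_coe, mem_filter, mem_cs] at hD
      obtain ⟨⟨⟨hD1, hDX⟩, -, hTD⟩, hb⟩ := hD
      obtain ⟨ha0, hb0, hD2, hsq⟩ := hab D (by omega)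
      have hbK : b D ≤ K := by
        by_contra hc
        exact hb ⟨b D, not_le.1 hc, ⟨a D, hD2.symm⟩⟩
      have hgb : g D ∣ b D := by
        rw [hg]
        refine (prod_dvd_prod_of_subset _ _ _ ?_).trans (Nat.prod_primeFactors_dvd (b D))
        exact sdiff_subset.trans (filter_subset _ _)
      have hgK : g D ≤ K := (Nat.le_of_dvd hb0 hgb).trans hbK
      have haD : a D ≤ D := by
        conv_rhs => rw [← hD2]
        exact Nat.le_mul_of_pos_left _ (by positivity)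
      have hcop : Nat.Coprime (a D) (g D) := by
        rw [Nat.coprime_iff_isRelPrime.trans Iff.rfl, ← Nat.coprime_iff_isRelPrime]
        refine Nat.Coprime.symm ?_
        rw [hg]
        refine Nat.Coprime.prod_left fun p hp => ?_
        obtain ⟨h5, -, -, h6⟩ := hgp D p hp
        rw [Nat.Prime.coprime_iff_not_dvd h5]
        intro h7
        exact h6 (Nat.mem_primeFactors.2 ⟨h5, h7, ha0.ne'⟩)
      have hsq2 : Squarefree (a D * g D) := (Nat.squarefree_mul hcop).2 ⟨hsq, hgsq D⟩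
      have hsp : sp P (a D * g D) = sp P D := by
        refine sp_congr (fun p hp hp1 => ?_) (mul_pos ha0 (hg0 D)).ne' (by omega)
        rw [hp.dvd_mul, hgd D p hp, Finset.mem_sdiff, mem_filter]
        constructor
        · rintro (h | ⟨⟨h, -⟩, -⟩)
          · rw [← hD2]
            exact h.mul_left _
          · rw [← hD2]
            exact ((Nat.dvd_of_mem_primeFactors h).trans (dvd_pow_self _ (by norm_num))).mul_right _
        · intro h
          by_cases h5 : p ∣ a D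
          · exact Or.inl h5
          · right
            rw [← hD2] at h
            have h6 := hp.dvd_of_dvd_pow ((hp.dvd_mul.1 h).resolve_right h5)
            exact ⟨⟨Nat.mem_primeFactors.2 ⟨hp, h6, hb0.ne'⟩, hp1⟩,
              fun h7 => h5 (Nat.dvd_of_mem_primeFactors h7)⟩
      rw [mem_coe, mem_product, mem_product, mem_Icc, mem_Icc, mem_cs]
      refine ⟨⟨⟨hb0, hbK⟩, hg0 D, hgK⟩, ⟨mul_pos ha0 (hg0 D), ?_⟩, hsq2, ?_⟩
      · calc a D * g D ≤ X * K := Nat.mul_le_mul (haD.trans hDX) hgK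
          _ = K * X := mul_comm _ _
      · rw [hsp]
        exact hTD
    · intro D hD D' hD' h
      rw [mem_coe, mem_filter, mem_cs] at hD hD'
      simp only [Prod.mk.injEq] at h
      obtain ⟨⟨h5, h6⟩, h7⟩ := h
      obtain ⟨-, -, hD2, -⟩ := hab D (by omega)
      obtain ⟨-, -, hD2', -⟩ := hab D' (by omega)
      rw [h6] at h7
      have h8 := Nat.eq_of_mul_eq_mul_right (hg0 D') h7
      rw [← hD2, ← hD2', h5, h8]
  have h2 : ((cnt (fun D => True ∧ ¬ T (sp P D)) X : ℕ) : ℝ) ≤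
      ((((Icc 1 X).filter fun D => ∃ b, K < b ∧ b ^ 2 ∣ D).card : ℕ) : ℝ) +
      (K : ℝ) * K * ((cnt (fun n => Squarefree n ∧ ¬ T (sp P n)) (K * X) : ℕ) : ℝ) := by
    rw [card_product, card_product, Nat.card_Icc, Nat.add_sub_cancel] at h1
    exact_mod_cast h1
  have h3 := sq_few K X hK1
  have h4 : (K : ℝ) * K * ((cnt (fun n => Squarefree n ∧ ¬ T (sp P n)) (K * X) : ℕ) : ℝ) ≤
      δ / 2 * X := by
    calc (K : ℝ) * K * ((cnt (fun n => Squarefree n ∧ ¬ T (sp P n)) (K * X) : ℕ) : ℝ) ≤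
          (K : ℝ) * K * (δ' * ((K * X : ℕ) : ℝ)) := mul_le_mul_of_nonneg_left hX (by positivity)
      _ = δ / 2 * X := by
          rw [hδ']
          push_cast
          field_simp
  have h5 : (X : ℝ) * (1 / K) ≤ X * (δ / 2) := mul_le_mul_of_nonneg_left hKδ (Nat.cast_nonneg _)
  linarith

end Pool.Agent.Q222.LP
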